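import Mathlib
import Pool.Agent.MP_324c12_gt.Defs
import Pool.Agent.MP_324c12_gt.Part7

/-!
# A Steinhaus surface that is not a surface of revolution

The example is the boundary of the round solid cylinder `x ^ 2 + y ^ 2 ≤ 1` cut by the two
planes `z = ± (1 / 4 - 11 / 60 * x)`.

Sketch of the proof.  Put `m = 11/60`, `H = 1/4`, `A = √(1 + m ^ 2) = 61/60`, `ρ = A + H`.  The
two flat faces are ellipses; let `N` and `N'` be their foci with `x = - m / A`.  By the focal
property, every ray from `N` in the upper face continues over the rim along a vertical generator
and then, in the lower face, to `N'`, with total length `2 ρ`.  Let `(r, θ)` be the polar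
coordinates around `N` given by these paths.  Going through `N` or through `N'` shows that any two
points have intrinsic distance at most `2 ρ`, and a shortcut in the flat face shows that the
distance is smaller than `2 ρ` unless the points are `(r, θ)` and `(2 ρ - r, θ + π)`.  On the other
hand the map sending `(r, θ)` to the point with the same polar coordinates on the round sphere of
radius `R = 2 ρ / π` is 1-Lipschitz on each of the three pieces of the surface, and it sends these
two points to antipodal points of the sphere, whose spherical distance is `π R = 2 ρ`.
-/

set_option autoImplicit false

open Pool.Agent.MP_324c12_gt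

namespace Pool.Agent.Results.MP_324c12_gt.SteinhausNotRevolution

/-- There is a Steinhaus surface (a convex surface in `ℝ³` whose antipodal map for the intrinsic
metric is single-valued and an involution) that is not a surface of revolution. -/
theorem result : ∃ S : Set E3, IsSteinhaus S ∧ ¬ IsSurfaceOfRevolution S := by
  let P : Par :=
    { m := 11 / 60
      A := 61 / 60
      H := 1 / 4
      hm := by norm_num
      hmH := by norm_num
      hA := by norm_num
      hA0 := by norm_num
      hR := by
        have := Real.pi_gt_d2
        norm_num at this ⊢
        linarith }
  exact ⟨P.S, ⟨⟨P.K, P.isCompact_K, P.convex_K, P.interior_K_nonempty, rfl⟩,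
    fun p hp => P.steinhaus hp⟩, P.not_revolution⟩

end Pool.Agent.Results.MP_324c12_gt.SteinhausNotRevolution
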